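import Mathlib
import Pool.Agent.helper12.LE.SpecB

/-!
# Project LE (MP_baa4d7_al), block BOUND-K: row KAS

The elements `u ^ (1 + p s) * k` are regular and pairwise not conjugate under `T`.
-/

set_option autoImplicit false

namespace Pool.Agent.LE

open Pool.Agent.helper58.DC Pool.Agent.DI Pool.Agent.GR Pool.Agent.OB Pool.Agent.DR Pool.Agent.FI Pool.Agent.FI3 Pool.Agent.FI4 Pool.Agent.FI4C Pool.Agent.FI4B

section

variable {G : Type} [Group G]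

/-- Iteration of `t * u ^ a * t⁻¹ ∈ u ^ a' K`. -/
theorem KAS_iter {D K : Subgroup G} (hKD : K ≤ D) (hcom : ∀ c ∈ D, ∀ d ∈ D, c * d = d * c) {t u : G}
    (hu : u ∈ D) (hK : ∀ k ∈ K, t * k * t⁻¹ ∈ K) {a a' : ℕ}
    (h : ∃ k ∈ K, t * u ^ a * t⁻¹ = u ^ a' * k) (j : ℕ) :
    ∃ k ∈ K, t ^ j * u ^ (a ^ j) * (t ^ j)⁻¹ = u ^ (a' ^ j) * k := by
  obtain ⟨k₀, hk₀, e₀⟩ := h
  induction j with
  | zero => exact ⟨1, K.one_mem, by simp⟩
  | succ j ih =>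
    obtain ⟨k, hk, e⟩ := ih
    have c1 : Commute (u ^ (a' ^ j)) k := hcom _ (D.pow_mem hu _) _ (hKD hk)
    have c2 : Commute (u ^ a') k₀ := hcom _ (D.pow_mem hu _) _ (hKD hk₀)
    refine ⟨k₀ ^ (a' ^ j) * (t * k ^ a * t⁻¹), K.mul_mem (K.pow_mem hk₀ _) (hK _ (K.pow_mem hk _)), ?_⟩
    calc t ^ (j + 1) * u ^ (a ^ (j + 1)) * (t ^ (j + 1))⁻¹
        = t * (t ^ j * u ^ (a ^ j) * (t ^ j)⁻¹) ^ a * t⁻¹ := by
          rw [conj_pow, pow_succ' t, pow_succ a, pow_mul]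
          simp only [mul_assoc, mul_inv_rev]
      _ = t * (u ^ (a' ^ j) * k) ^ a * t⁻¹ := by rw [e]
      _ = t * ((u ^ (a' ^ j)) ^ a * k ^ a) * t⁻¹ := by rw [c1.mul_pow]
      _ = t * (u ^ a) ^ (a' ^ j) * t⁻¹ * (t * k ^ a * t⁻¹) := by
          rw [← pow_mul, mul_comm (a' ^ j) a, pow_mul]
          simp only [mul_assoc, inv_mul_cancel_left]
      _ = (u ^ a' * k₀) ^ (a' ^ j) * (t * k ^ a * t⁻¹) := by rw [← conj_pow, e₀]
      _ = u ^ (a' ^ (j + 1)) * (k₀ ^ (a' ^ j) * (t * k ^ a * t⁻¹)) := by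
          rw [c2.mul_pow, ← pow_mul, ← pow_succ', mul_assoc]

/-- The partial norms of `y`, where `t * y * t⁻¹ ∈ y K`. -/
theorem KAS_norm {D K : Subgroup G} (hKD : K ≤ D) (hcom : ∀ c ∈ D, ∀ d ∈ D, c * d = d * c) {t y : G}
    (hy : y ∈ D) (hK : ∀ k ∈ K, t * k * t⁻¹ ∈ K) (h : ∃ k ∈ K, t * y * t⁻¹ = y * k) (j : ℕ) :
    (∃ k ∈ K, t ^ j * y * (t ^ j)⁻¹ = y * k) ∧
      ∃ N : G, (∃ k ∈ K, N = y ^ j * k) ∧ t * N * t⁻¹ * y = N * (t ^ j * y * (t ^ j)⁻¹) := by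
  obtain ⟨k₀, hk₀, e₀⟩ := h
  induction j with
  | zero => exact ⟨⟨1, K.one_mem, by simp⟩, 1, ⟨1, K.one_mem, by simp⟩, by simp⟩
  | succ j ih =>
    obtain ⟨⟨k₁, hk₁, e₁⟩, N, ⟨k₂, hk₂, e₂⟩, e₃⟩ := ih
    have e₄ : t ^ (j + 1) * y * (t ^ (j + 1))⁻¹ = t * (t ^ j * y * (t ^ j)⁻¹) * t⁻¹ := by
      rw [pow_succ' t]
      simp only [mul_assoc, mul_inv_rev]
    have e₅ : t ^ (j + 1) * y * (t ^ (j + 1))⁻¹ = y * (k₀ * (t * k₁ * t⁻¹)) := by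
      rw [e₄, e₁]
      calc t * (y * k₁) * t⁻¹ = (t * y * t⁻¹) * (t * k₁ * t⁻¹) := by
            simp only [mul_assoc, inv_mul_cancel_left]
        _ = y * (k₀ * (t * k₁ * t⁻¹)) := by rw [e₀, mul_assoc]
    have hk₃ : k₀ * (t * k₁ * t⁻¹) ∈ K := K.mul_mem hk₀ (hK _ hk₁)
    refine ⟨⟨_, hk₃, e₅⟩, N * (t ^ j * y * (t ^ j)⁻¹), ⟨k₂ * k₁, K.mul_mem hk₂ hk₁, ?_⟩, ?_⟩
    · rw [e₁, e₂]
      have c1 : k₂ * y = y * k₂ := hcom _ (hKD hk₂) _ hy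
      calc y ^ j * k₂ * (y * k₁) = y ^ j * (k₂ * y) * k₁ := by simp only [mul_assoc]
        _ = y ^ j * (y * k₂) * k₁ := by rw [c1]
        _ = y ^ (j + 1) * (k₂ * k₁) := by
          rw [pow_succ]
          simp only [mul_assoc]
    · have c2 : (t ^ (j + 1) * y * (t ^ (j + 1))⁻¹) * y = y * (t ^ (j + 1) * y * (t ^ (j + 1))⁻¹) := by
        rw [e₅]
        exact hcom _ (D.mul_mem hy (hKD hk₃)) _ hy
      calc t * (N * (t ^ j * y * (t ^ j)⁻¹)) * t⁻¹ * y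
          = (t * N * t⁻¹) * ((t * (t ^ j * y * (t ^ j)⁻¹) * t⁻¹) * y) := by
            simp only [mul_assoc, inv_mul_cancel_left]
        _ = (t * N * t⁻¹) * (y * (t ^ (j + 1) * y * (t ^ (j + 1))⁻¹)) := by rw [← e₄, c2]
        _ = (t * N * t⁻¹ * y) * (t ^ (j + 1) * y * (t ^ (j + 1))⁻¹) := by
          rw [← mul_assoc (t * N * t⁻¹) y]
        _ = N * (t ^ j * y * (t ^ j)⁻¹) * (t ^ (j + 1) * y * (t ^ (j + 1))⁻¹) := by rw [e₃]

/-- `t` commutes with an element of `y K`. -/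
theorem KAS_comm {D K : Subgroup G} (hKD : K ≤ D) (hcom : ∀ c ∈ D, ∀ d ∈ D, c * d = d * c) {t y : G}
    (hy : y ∈ D) (hK : ∀ k ∈ K, t * k * t⁻¹ ∈ K) (h : ∃ k ∈ K, t * y * t⁻¹ = y * k) {e f : ℕ}
    (he : t ^ e * y = y * t ^ e) (hf : y ^ (e * f) = y) : ∃ k ∈ K, t * (y * k) = y * k * t := by
  obtain ⟨-, N, ⟨k, hk, e₁⟩, e₂⟩ := KAS_norm hKD hcom hy hK h e
  have e₃ : t ^ e * y * (t ^ e)⁻¹ = y := by rw [he, mul_inv_cancel_right]
  rw [e₃] at e₂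
  have e₄ : t * N * t⁻¹ = N := mul_right_cancel e₂
  have e₅ : Commute t N := by
    have h1 : t * N * t⁻¹ * t = N * t := by rw [e₄]
    rwa [inv_mul_cancel_right] at h1
  have e₆ : N ^ f = y * k ^ f := by
    have c1 : Commute (y ^ e) k := hcom _ (D.pow_mem hy _) _ (hKD hk)
    rw [e₁, c1.mul_pow, ← pow_mul, hf]
  refine ⟨k ^ f, K.pow_mem hk _, ?_⟩
  rw [← e₆]
  exact (e₅.pow_right f)

/-- The order of `u` modulo `K`. -/
theorem KAS_ord {p : ℕ} (hp : p.Prime) (K : Subgroup G) {u : G} {n : ℕ} (hn : u ^ p ^ n = 1) :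
    ∃ i : ℕ, ∀ z : ℤ, u ^ z ∈ K ↔ ((p : ℤ) ^ i) ∣ z := by
  have h1 : ∀ z : ℤ, u ^ z ∈ K ↔ ((MulAction.period u ((1 : G) : G ⧸ K) : ℕ) : ℤ) ∣ z := by
    intro z
    rw [← MulAction.zpow_smul_eq_iff_period_dvd]
    have h2 : u ^ z • ((1 : G) : G ⧸ K) = ((u ^ z : G) : G ⧸ K) := by
      rw [MulAction.Quotient.smul_coe, smul_eq_mul, mul_one]
    rw [h2, eq_comm, QuotientGroup.eq, inv_one, one_mul]
  have h3 : MulAction.period u ((1 : G) : G ⧸ K) ∣ p ^ n := by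
    have h4 : u ^ ((p ^ n : ℕ) : ℤ) ∈ K := by
      rw [zpow_natCast, hn]
      exact K.one_mem
    exact Int.natCast_dvd_natCast.1 ((h1 _).1 h4)
  obtain ⟨i, -, hi⟩ := (Nat.dvd_prime_pow hp).1 h3
  refine ⟨i, fun z => ?_⟩
  rw [h1 z, hi, Nat.cast_pow]

end

/-- `p ^ i ∣ a ^ e - a' ^ e` implies `p ^ i ∣ a - a'` if `a` and `a'` are `1` modulo `p`, `p ∤ e`. -/
theorem KAS_lte {p : ℕ} (hp : p.Prime) {s s' : ℤ} {e i : ℕ} (he : ¬ p ∣ e)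
    (h : (p : ℤ) ^ i ∣ (1 + p * s) ^ e - (1 + p * s') ^ e) : (p : ℤ) ^ i ∣ p * (s - s') := by
  have hp' : Prime (p : ℤ) := Nat.prime_iff_prime_int.1 hp
  have h1 : (p : ℤ) ∣ (1 + p * s) - (1 + p * s') := ⟨s - s', by ring⟩
  have h2 : ¬ (p : ℤ) ∣ 1 + p * s := fun h3 => by
    have h4 : (p : ℤ) ∣ 1 := (dvd_add_left (dvd_mul_right _ _)).1 h3
    exact hp'.not_isUnit (isUnit_of_dvd_one h4)
  have h5 : emultiplicity (p : ℤ) ((1 + p * s) ^ e - (1 + p * s') ^ e) =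
      emultiplicity (p : ℤ) ((1 + p * s) - (1 + p * s')) := by
    refine emultiplicity_pow_sub_pow_of_prime hp' h1 h2 ?_
    exact_mod_cast he
  have h6 : (p : ℤ) ^ i ∣ (1 + p * s) - (1 + p * s') := by
    rw [pow_dvd_iff_le_emultiplicity] at h ⊢
    rwa [h5] at h
  have h7 : (1 + p * s : ℤ) - (1 + p * s') = p * (s - s') := by ring
  rwa [h7] at h6

/-- The end of the argument: `s = s'`. -/
theorem KAS_eq {p : ℕ} (hp : p.Prime) {s s' g i : ℕ} (hs : s < p ^ g) (hs' : s' < p ^ g)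
    (hi : g = 0 ∨ g < i) (h : (p : ℤ) ^ i ∣ p * ((s : ℤ) - s')) : s = s' := by
  rcases hi with hg | hi
  · subst hg
    rw [pow_zero] at hs hs'
    omega
  · by_contra hne
    obtain ⟨i', rfl⟩ : ∃ i', i = i' + 1 := ⟨i - 1, by omega⟩
    have hp0 : (p : ℤ) ≠ 0 := by exact_mod_cast hp.ne_zero
    rw [pow_succ', mul_dvd_mul_iff_left hp0] at h
    have h1 : (p : ℤ) ^ g ∣ (s : ℤ) - s' := (pow_dvd_pow _ (by omega)).trans h
    have h2 : ((p ^ g : ℕ) : ℤ) ∣ (s : ℤ) - s' := by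
      rw [Nat.cast_pow]
      exact h1
    have h3 : (s : ℤ) - s' ≠ 0 := by omega
    have h4 := Int.le_of_dvd (abs_pos.2 h3) ((dvd_abs _ _).2 h2)
    have h5 : |(s : ℤ) - s'| < ((p ^ g : ℕ) : ℤ) := by
      rw [abs_lt]
      constructor <;> omega
    omega

theorem KAS (hKRP : KRP_stmt) : KAS_stmt := by
  intro p M hS G _ _ D x θ χ hL h g K u hR
  have hp := hS.pr
  have hcom := hL.rt.com
  have hpg : IsPGroup p D := hL.rt.dfa.pgrp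
  have hreg : ∀ s : ℕ, ∀ k ∈ K, u ^ (1 + p * s) * k ∈ RG M D θ := by
    intro s k hk
    have h1 : ¬ p ∣ 1 + p * s := by
      intro h2
      have h3 : p ∣ 1 := (Nat.dvd_add_left (dvd_mul_right _ _)).1 h2
      exact hp.one_lt.ne' (Nat.dvd_one.1 h3)
    exact (hKRP p M hp G D θ hL.rt.th hpg hcom h g K u hR _ h1).reg k hk
  refine ⟨hreg, ?_⟩
  intro t ht s hs s' hs' k hk k' hk' heq
  have hK : ∀ k ∈ K, t * k * t⁻¹ ∈ K := fun k hk => hR.inv t ht k hk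
  have hu := hR.mem
  have hKD := hR.le
  -- `e`
  have hnor : ((cz D).subgroupOf (TT M D θ)).Normal := by
    refine ⟨fun n hn g => ?_⟩
    rw [Subgroup.mem_subgroupOf] at hn ⊢
    exact cz_conj g.2.1 hn
  have hte : t ^ ((cz D).relIndex (TT M D θ)) ∈ cz D := by
    have h1 := Subgroup.pow_index_mem ((cz D).subgroupOf (TT M D θ)) ⟨t, ht⟩
    rw [Subgroup.mem_subgroupOf] at h1
    exact h1
  generalize he : (cz D).relIndex (TT M D θ) = e at hte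
  have hpe : ¬ p ∣ e := he ▸ hL.bet
  have hteD : ∀ d ∈ D, t ^ e * d = d * t ^ e := fun d hd => ((Subgroup.mem_centralizer_iff.1 hte) d hd).symm
  obtain ⟨n, hn⟩ : ∃ n : ℕ, ∀ d ∈ D, d ^ p ^ n = 1 := by
    have := Fact.mk hp
    obtain ⟨n, hn⟩ := IsPGroup.iff_card.1 hpg
    refine ⟨n, fun d hd => ?_⟩
    rw [← hn]
    have h1 : (⟨d, hd⟩ : D) ^ Nat.card D = 1 := pow_card_eq_one'
    exact congrArg Subtype.val h1
  obtain ⟨i, hi⟩ := KAS_ord hp K (hn u hu)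
  -- first step
  have h1 : ∃ k ∈ K, t * u ^ (1 + p * s) * t⁻¹ = u ^ (1 + p * s') * k := by
    refine ⟨k' * (t * k * t⁻¹)⁻¹, K.mul_mem hk' (K.inv_mem (hK k hk)), ?_⟩
    rw [← mul_assoc, ← heq]
    group
  obtain ⟨k₁, hk₁, e₁⟩ := KAS_iter hKD hcom hu hK h1 e
  have h2 : u ^ ((1 + p * (s : ℤ)) ^ e - (1 + p * (s' : ℤ)) ^ e) ∈ K := by
    have h3 : t ^ e * u ^ ((1 + p * s) ^ e) * (t ^ e)⁻¹ = u ^ ((1 + p * s) ^ e) := by
      rw [hteD _ (D.pow_mem hu _), mul_inv_cancel_right]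
    rw [h3] at e₁
    have h4 : (u ^ ((1 + p * s') ^ e))⁻¹ * u ^ ((1 + p * s) ^ e) = k₁ := by
      rw [e₁, inv_mul_cancel_left]
    have h5 : u ^ ((1 + p * (s : ℤ)) ^ e - (1 + p * (s' : ℤ)) ^ e) =
        (u ^ ((1 + p * s') ^ e))⁻¹ * u ^ ((1 + p * s) ^ e) := by
      rw [sub_eq_neg_add, zpow_add, zpow_neg]
      have h6 : (1 + p * (s : ℤ)) ^ e = (((1 + p * s) ^ e : ℕ) : ℤ) := by push_cast; ring
      have h7 : (1 + p * (s' : ℤ)) ^ e = (((1 + p * s') ^ e : ℕ) : ℤ) := by push_cast; ring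
      rw [h6, h7, zpow_natCast, zpow_natCast]
    rw [h5, h4]
    exact hk₁
  have h3 := KAS_lte hp hpe ((hi _).1 h2)
  have hig : g = 0 ∨ g < i := by
    rcases hR.ord with h4 | h4
    · exact Or.inl h4
    · right
      by_contra h5
      push Not at h5
      refine h4 ?_
      have h6 : u ^ ((p ^ g : ℕ) : ℤ) ∈ K := by
        rw [hi, Nat.cast_pow]
        exact pow_dvd_pow _ h5
      rwa [zpow_natCast] at h6
  have hss : s = s' := KAS_eq hp hs hs' hig h3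
  subst hss
  refine ⟨rfl, ?_⟩
  -- second step
  have hyD : u ^ (1 + p * s) * k ∈ D := D.mul_mem (D.pow_mem hu _) (hKD hk)
  obtain ⟨f, hf⟩ : ∃ f : ℕ, (u ^ (1 + p * s) * k) ^ (e * f) = u ^ (1 + p * s) * k := by
    have h1 : e.Coprime (orderOf (u ^ (1 + p * s) * k)) :=
      Nat.Coprime.coprime_dvd_right (orderOf_dvd_of_pow_eq_one (hn _ hyD))
        (((Nat.Prime.coprime_iff_not_dvd hp).2 hpe).symm.pow_right n)
    obtain ⟨f, hf⟩ := exists_pow_eq_self_of_coprime h1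
    exact ⟨f, by rw [pow_mul, hf]⟩
  have h4 : ∃ k'' ∈ K, t * (u ^ (1 + p * s) * k) * t⁻¹ = u ^ (1 + p * s) * k * k'' := by
    refine ⟨k⁻¹ * k', K.mul_mem (K.inv_mem hk) hk', ?_⟩
    rw [heq]
    group
  obtain ⟨k₂, hk₂, e₂⟩ := KAS_comm hKD hcom hyD hK h4 (hteD _ hyD) hf
  have h5 : t ∈ cz D := by
    have h6 := hreg s (k * k₂) (K.mul_mem hk hk₂)
    rw [← mul_assoc] at h6
    exact h6.2 t ht e₂
  have h6 : t * (u ^ (1 + p * s) * k) * t⁻¹ = u ^ (1 + p * s) * k := by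
    rw [← (Subgroup.mem_centralizer_iff.1 h5) _ hyD, mul_inv_cancel_right]
  rw [h6] at heq
  exact mul_left_cancel heq

end Pool.Agent.LE
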