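import Pool.Agent.helper83.LE.SpecB

/-!
# Row le:DP2 (MP_baa4d7_al): the conjugates of `dd` are equal
-/

set_option autoImplicit false

namespace Pool.Agent.LE

open Pool.Agent.helper58.DC Pool.Agent.DI Pool.Agent.GR Pool.Agent.OB Pool.Agent.DR Pool.Agent.FI Pool.Agent.FI3 Pool.Agent.FI4 Pool.Agent.FI4C

theorem DP2 (hDF : DF4_stmt) (hGP2 : GP2_stmt) : DP2_stmt := by
  intro p M hS G _ _ D θ m hm u hu hG ψ hψ hr s hs
  have hp : p.Prime := hS.pr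
  have hps : ¬ p ∣ s := by
    intro hd
    have h1 : s ≡ 0 [MOD p] := (Nat.modEq_zero_iff_dvd).2 hd
    have h2 : 1 ≡ 0 [MOD p] := hs.symm.trans h1
    exact hp.one_lt.ne' (Nat.dvd_one.1 ((Nat.modEq_zero_iff_dvd).1 h2))
  rw [Cz_pow hp hu hps]
  have hne : (Bl M (Cz (⊤ : Subgroup G) u) θ).Nonempty := by
    apply Set.nonempty_of_ncard_ne_zero
    rw [hG.card]
    exact Nat.card_pos.ne'
  obtain ⟨η, hη⟩ := hne
  have hc : ∀ v ∈ Cz (⊤ : Subgroup G) u, v * u = u * v := by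
    intro v hv
    exact (Subgroup.mem_centralizer_iff.1 hv.2 u (Set.mem_singleton u)).symm
  have hmem : ∀ t : ℕ, u ^ t ∈ Cz (⊤ : Subgroup G) u := by
    intro t
    refine Subgroup.mem_inf.2 ⟨Subgroup.mem_top _, ?_⟩
    rw [Subgroup.mem_centralizer_iff]
    intro h hh
    rw [Set.mem_singleton_iff.1 hh]
    exact (Commute.refl u).pow_right t
  have hcen : ∀ t : ℕ, Cen (Cz (⊤ : Subgroup G) u) (u ^ t) := by
    intro t l hl
    exact (show Commute l u from hc l hl).pow_right t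
  have h1 := hDF p M hS G D _ θ hG (u ^ s) (hmem s) (hcen s) ψ hψ η hη
  have h2 := hDF p M hS G D _ θ hG u (by simpa using hmem 1) (by simpa using hcen 1) ψ hψ η hη
  have h3 : ∑ᶠ v ∈ {v : G | v ∈ Cz (⊤ : Subgroup G) u ∧ PReg p v}, ψ (u ^ s * v) * η v⁻¹ =
      ∑ᶠ v ∈ {v : G | v ∈ Cz (⊤ : Subgroup G) u ∧ PReg p v}, ψ (u * v) * η v⁻¹ := by
    refine finsum_mem_congr rfl fun v hv => ?_
    rw [hGP2 p hS.pr G m hm ψ hr u v (hc v hv.1).symm hu hv.2 s hs]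
  rw [h3, ← h2] at h1
  have hK : (Nat.card (Cz (⊤ : Subgroup G) u) : ℂ) ≠ 0 := Nat.cast_ne_zero.2 Nat.card_pos.ne'
  exact mul_left_cancel₀ hK h1

end Pool.Agent.LE
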